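import Pool.Agent.X76.Wreath

set_option autoImplicit false

/-!
A version of Vizing's theorem for multigraphs, where vertices are added in a prescribed order.
-/

namespace Pool.Agent.Helper437.Wr

open Finset Pool.Agent.MPd14d18 Pool.Agent.X76.PM

/-- Vizing's theorem for multigraphs with at least `t` colours missing at each vertex.  The vertices
are added in the order of decreasing `r`.  Multiplicity `t + 1` is allowed for pairs `x, y` where
`y` has a neighbour which is added after `x`, and for one further neighbour of `x`. -/
theorem ordered_vizing {V : Type} [Fintype V] [DecidableEq V] (z : V → V → ℕ)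
    (hs : ∀ x y, z x y = z y x) (h0 : ∀ x, z x x = 0) (t N : ℕ) (r : V → ℕ) (E : V → V)
    (hd : ∀ x, ∑ y, z x y + t ≤ N)
    (hz : ∀ x y, r x ≤ r y → z x y ≤ t ∨
      (z x y ≤ t + 1 ∧ (E x = y ∨ ∃ w, r w < r x ∧ 0 < z y w))) :
    ∃ φ : ℕ → V → V, (∀ c x, φ c (φ c x) = x) ∧
      ∀ x y, x ≠ y → ((range N).filter fun c => φ c x = y).card = z x y := by
  classical
  let L : Finset ℕ := Finset.range N
  have hL : L.card = N := Finset.card_range _
  have hall : ∀ (n : ℕ) (X : Finset V), X.card = n → ∃ m : ℕ → V → V, (∀ c v, m c (m c v) = v) ∧
      ∀ u w, u ≠ w → mu L m u w = if u ∈ X ∧ w ∈ X then z u w else 0 := by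
    intro n
    induction n with
    | zero =>
      intro X hX
      rw [Finset.card_eq_zero] at hX
      subst hX
      refine ⟨fun _ v => v, fun _ _ => rfl, ?_⟩
      intro u w huw
      rw [mu_eq_card, Finset.card_eq_zero.2]
      · simp
      · rw [Finset.filter_eq_empty_iff]
        intro _ _ h
        exact huw h
    | succ n ih =>
      intro Y hY
      have hYne : Y.Nonempty := by rw [← Finset.card_pos]; omega
      obtain ⟨x, hxY, hxmin⟩ := Finset.exists_min_image Y r hYne
      obtain ⟨X, hX⟩ : ∃ X, X = Y.erase x := ⟨_, rfl⟩
      have hx : x ∉ X := by rw [hX]; exact Finset.notMem_erase _ _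
      have hYX : Y = insert x X := by rw [hX, Finset.insert_erase hxY]
      have hXn : X.card = n := by rw [hX, Finset.card_erase_of_mem hxY, hY]; rfl
      obtain ⟨m, hm, hmu⟩ := ih X hXn
      have hmiss : ∀ u, (L.filter (fun c => m c u = u)).card +
          ∑ w ∈ univ.erase u, (if u ∈ X ∧ w ∈ X then z u w else 0) = N := by
        intro u
        rw [← hL, ← missing_add L m u]
        congr 1
        refine Finset.sum_congr rfl fun w hw => ?_
        rw [mem_erase] at hw
        exact (hmu u w hw.1.symm).symm
      have hxi : ∀ c ∈ L, m c x = x := by
        have h1 := hmiss x
        rw [Finset.sum_eq_zero (fun w _ => if_neg (fun h => hx h.1)), add_zero, ← hL] at h1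
        exact Finset.card_filter_eq_iff.mp h1
      let k : V → ℕ := fun u => if u ∈ X then z x u else 0
      have hkz : ∀ u, k u ≤ z x u := by
        intro u
        simp only [k]
        split_ifs
        · exact le_rfl
        · exact Nat.zero_le _
      have hksum : ∑ u, k u ≤ N := by
        have h1 := Finset.sum_le_sum (s := univ) fun u _ => hkz u
        have h2 := hd x
        omega
      obtain ⟨m', hm', -, hmu'⟩ := add_vertex' x N L hL m hm hxi k (E x)
        (by simp [k, hx]) hksum (by
          intro u
          have h1 := hmiss u
          by_cases hu : u ∈ X
          · have hux : u ≠ x := fun h => hx (h ▸ hu)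
            have hru : r x ≤ r u := hxmin u (by rw [hYX]; exact mem_insert_of_mem hu)
            -- the degree of `u` inside `X`
            have h2 : ∀ w0, w0 ∉ Y → ∑ w ∈ univ.erase u, (if u ∈ X ∧ w ∈ X then z u w else 0)
                + z x u + z u w0 + t ≤ N := by
              intro w0 hw0
              have hw0x : w0 ≠ x := fun h => hw0 (h ▸ hxY)
              have hw0X : w0 ∉ X := fun h => hw0 (by rw [hYX]; exact mem_insert_of_mem h)
              have h3 := hd u
              have h4 : ∑ y, z u y = z u x + (z u w0 + ∑ y ∈ (univ.erase x).erase w0, z u y) := by
                rw [← Finset.add_sum_erase univ (fun w => z u w) (mem_univ x),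
                  ← Finset.add_sum_erase (univ.erase x) (fun w => z u w)
                    (mem_erase.2 ⟨hw0x, mem_univ _⟩)]
              have h5 : ∑ w ∈ univ.erase u, (if u ∈ X ∧ w ∈ X then z u w else 0) ≤
                  ∑ y ∈ (univ.erase x).erase w0, z u y := by
                calc ∑ w ∈ univ.erase u, (if u ∈ X ∧ w ∈ X then z u w else 0)
                    ≤ ∑ w, (if u ∈ X ∧ w ∈ X then z u w else 0) :=
                      Finset.sum_le_sum_of_subset (Finset.erase_subset _ _)
                  _ = ∑ w ∈ (univ.erase x).erase w0, (if u ∈ X ∧ w ∈ X then z u w else 0) := by
                      symm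
                      apply Finset.sum_subset (Finset.subset_univ _)
                      intro w _ hw
                      rw [mem_erase, mem_erase] at hw
                      apply if_neg
                      rintro ⟨-, h⟩
                      apply hw
                      exact ⟨fun h' => hw0X (h' ▸ h), fun h' => hx (h' ▸ h), mem_univ _⟩
                  _ ≤ ∑ y ∈ (univ.erase x).erase w0, z u y := by
                      apply Finset.sum_le_sum
                      intro w _
                      split_ifs
                      · exact le_rfl
                      · exact Nat.zero_le _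
              rw [hs x u]
              omega
            have h2' : ∑ w ∈ univ.erase u, (if u ∈ X ∧ w ∈ X then z u w else 0)
                + z x u + t ≤ N := by
              have h3 := hd u
              have h4 : ∑ y, z u y = z u x + (∑ y ∈ (univ.erase x), z u y) := by
                rw [← Finset.add_sum_erase univ (fun w => z u w) (mem_univ x)]
              have h5 : ∑ w ∈ univ.erase u, (if u ∈ X ∧ w ∈ X then z u w else 0) ≤
                  ∑ y ∈ (univ.erase x), z u y := by
                calc ∑ w ∈ univ.erase u, (if u ∈ X ∧ w ∈ X then z u w else 0)
                    ≤ ∑ w, (if u ∈ X ∧ w ∈ X then z u w else 0) :=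
                      Finset.sum_le_sum_of_subset (Finset.erase_subset _ _)
                  _ = ∑ w ∈ (univ.erase x), (if u ∈ X ∧ w ∈ X then z u w else 0) := by
                      symm
                      apply Finset.sum_subset (Finset.subset_univ _)
                      intro w _ hw
                      rw [mem_erase] at hw
                      apply if_neg
                      rintro ⟨-, h⟩
                      apply hw
                      exact ⟨fun h' => hx (h' ▸ h), mem_univ _⟩
                  _ ≤ ∑ y ∈ (univ.erase x), z u y := by
                      apply Finset.sum_le_sum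
                      intro w _
                      split_ifs
                      · exact le_rfl
                      · exact Nat.zero_le _
              rw [hs x u]
              omega
            have h3 := hkz u
            rcases hz x u hru with h4 | ⟨h4, h5 | ⟨w, h5, h6⟩⟩
            · split_ifs <;> omega
            · rw [if_pos h5.symm]
              omega
            · have h7 : w ∉ Y := by
                intro h7
                have := hxmin w h7
                omega
              have := h2 w h7
              split_ifs <;> omega
          · simp only [k, hu, if_false]
            omega)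
      refine ⟨m', hm', ?_⟩
      intro u w huw
      rw [hmu' u w huw, hmu u w huw, hYX]
      simp only [mem_insert, k]
      by_cases hux : u = x
      · have hwx : w ≠ x := fun h => huw (hux.trans h.symm)
        subst hux
        simp [hx, hwx]
      · by_cases hwx : w = x
        · subst hwx
          simp [hx, hux, hs w u]
        · simp [hux, hwx]
  obtain ⟨m, hm, hmu⟩ := hall _ univ rfl
  refine ⟨m, hm, ?_⟩
  intro x y hxy
  have h1 := hmu x y hxy
  rw [if_pos ⟨mem_univ _, mem_univ _⟩] at h1
  rw [← h1, mu_eq_card]

end Pool.Agent.Helper437.Wr
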