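import Pool.Agent.Helper437.OrdVizing

set_option autoImplicit false

/-!
Edge colourings of wreath products: the general case.
-/

namespace Pool.Agent.Helper437.Wr

open Finset SimpleGraph Pool.Agent.X76.Wr

/-- choosing elements of finite sets by number -/
theorem exists_nth : ∃ e : Finset ℕ → ℕ → ℕ, ∀ (S : Finset ℕ) (i : ℕ), i < S.card →
    e S i ∈ S ∧ ∀ j, j < S.card → e S i = e S j → i = j := by
  classical
  refine ⟨fun S i => if h : i < S.card then ((S.equivFin.symm ⟨i, h⟩ : S) : ℕ) else 0, ?_⟩
  intro S i hi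
  simp only [dif_pos hi]
  refine ⟨(S.equivFin.symm ⟨i, hi⟩).2, ?_⟩
  intro j hj hij
  rw [dif_pos hj] at hij
  have h1 := S.equivFin.symm.injective (Subtype.ext hij)
  exact Fin.mk.inj_iff.1 h1

section

variable {W : Type} [Fintype W] (G' : SimpleGraph W)

/-- same orbit -/
def Orb (u w : W) : Prop := ∃ φ : G' ≃g G', φ u = w

theorem Orb.refl (u : W) : Orb G' u u := ⟨SimpleGraph.Iso.refl, rfl⟩

theorem Orb.symm {u w : W} (h : Orb G' u w) : Orb G' w u := by
  obtain ⟨φ, h⟩ := h
  exact ⟨φ.symm, by rw [← h]; simp⟩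

theorem Orb.trans {u v w : W} (h : Orb G' u v) (h' : Orb G' v w) : Orb G' u w := by
  obtain ⟨φ, h⟩ := h
  obtain ⟨ψ, h'⟩ := h'
  exact ⟨φ.trans ψ, by simp [h, h']⟩

theorem orb_pos (w : W) : 0 < orb G' w :=
  (Set.ncard_pos (Set.toFinite _)).2 ⟨w, SimpleGraph.Iso.refl, rfl⟩

/-- the smallest size of an orbit reachable from `w` -/
noncomputable def m0 (w : W) : ℕ := sInf {n | ∃ u, (∃ v, Orb G' w v ∧ G'.Reachable v u) ∧ orb G' u = n}

theorem m0_le {w u v : W} (h : Orb G' w v) (h' : G'.Reachable v u) : m0 G' w ≤ orb G' u :=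
  Nat.sInf_le ⟨u, ⟨v, h, h'⟩, rfl⟩

theorem m0_spec (w : W) : ∃ u, (∃ v, Orb G' w v ∧ G'.Reachable v u) ∧ orb G' u = m0 G' w :=
  Nat.sInf_mem (s := {n | ∃ u, (∃ v, Orb G' w v ∧ G'.Reachable v u) ∧ orb G' u = n})
    ⟨_, w, ⟨w, Orb.refl G' w, SimpleGraph.Reachable.refl w⟩, rfl⟩

theorem reach_map (φ : G' ≃g G') {u v : W} (h : G'.Reachable u v) : G'.Reachable (φ u) (φ v) :=
  h.map φ.toHom

/-- `m0` is constant along orbits and edges -/
theorem m0_mono {w w' : W} (h : ∃ v, Orb G' w v ∧ G'.Reachable v w') : m0 G' w ≤ m0 G' w' := by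
  obtain ⟨u, ⟨v', h1, h2⟩, h3⟩ := m0_spec G' w'
  obtain ⟨v, h4, h5⟩ := h
  rw [← h3]
  obtain ⟨φ, h6⟩ := h1
  -- w ~ v → w', w' ~ v' → u ; φ w' = v'
  refine m0_le G' (v := φ v) (h4.trans G' ⟨φ, rfl⟩) ?_
  have := reach_map G' φ h5
  rw [h6] at this
  exact this.trans h2

theorem m0_orb {w w' : W} (h : Orb G' w w') : m0 G' w = m0 G' w' :=
  le_antisymm (m0_mono G' ⟨w', h, SimpleGraph.Reachable.refl _⟩)
    (m0_mono G' ⟨w, h.symm G', SimpleGraph.Reachable.refl _⟩)

theorem m0_reach {w w' : W} (h : G'.Reachable w w') : m0 G' w = m0 G' w' :=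
  le_antisymm (m0_mono G' ⟨w, Orb.refl G' w, h⟩) (m0_mono G' ⟨w', Orb.refl G' w', h.symm⟩)

theorem m0_le_self (w : W) : m0 G' w ≤ orb G' w :=
  m0_le G' (Orb.refl G' w) (SimpleGraph.Reachable.refl w)

theorem m0_pos (w : W) : 0 < m0 G' w := by
  obtain ⟨u, -, h⟩ := m0_spec G' w
  rw [← h]
  exact orb_pos G' u

theorem exists_min (w : W) : ∃ u, G'.Reachable w u ∧ orb G' u = m0 G' u := by
  obtain ⟨u, ⟨v, ⟨φ, h1⟩, h2⟩, h3⟩ := m0_spec G' w
  refine ⟨φ.symm u, ?_, ?_⟩
  · have := reach_map G' φ.symm h2
    rw [← h1] at this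
    simpa using this
  · have h4 : Orb G' (φ.symm u) u := ⟨φ, by simp⟩
    rw [orb_eq G' _ _ h4, h3, m0_orb G' h4]
    exact m0_mono G' ⟨v, ⟨φ, h1⟩, h2⟩ |>.antisymm
      (by rw [← h3]; exact m0_le_self G' u)

/-- distance to a smallest orbit -/
noncomputable def rk (w : W) : ℕ :=
  sInf {n | ∃ u, orb G' u = m0 G' u ∧ ∃ p : G'.Walk w u, p.length = n}

theorem rk_spec (w : W) : ∃ u, orb G' u = m0 G' u ∧ ∃ p : G'.Walk w u, p.length = rk G' w := by
  apply Nat.sInf_mem (s := {n | ∃ u, orb G' u = m0 G' u ∧ ∃ p : G'.Walk w u, p.length = n})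
  obtain ⟨u, ⟨p⟩, h2⟩ := exists_min G' w
  exact ⟨p.length, u, h2, p, rfl⟩

theorem rk_le {w u : W} (h : orb G' u = m0 G' u) (p : G'.Walk w u) : rk G' w ≤ p.length :=
  Nat.sInf_le ⟨u, h, p, rfl⟩

theorem rk_orb_le {w w' : W} (h : Orb G' w w') : rk G' w' ≤ rk G' w := by
  obtain ⟨φ, rfl⟩ := h
  obtain ⟨u, h1, p, h2⟩ := rk_spec G' w
  rw [← h2]
  have h3 : Orb G' u (φ u) := ⟨φ, rfl⟩
  have h4 := rk_le G' (w := φ w) (u := φ u) (by rw [← orb_eq G' _ _ h3, h1, m0_orb G' h3])
    (p.map φ.toHom)
  rw [SimpleGraph.Walk.length_map] at h4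
  exact h4

theorem rk_orb {w w' : W} (h : Orb G' w w') : rk G' w = rk G' w' :=
  le_antisymm (rk_orb_le G' (h.symm G')) (rk_orb_le G' h)

theorem rk_pos {w : W} (h : 0 < rk G' w) : ∃ w', G'.Adj w w' ∧ rk G' w' < rk G' w := by
  obtain ⟨u, h1, p, h2⟩ := rk_spec G' w
  cases p with
  | nil => rw [← h2] at h; simp at h
  | cons hadj q =>
    rename_i w'
    refine ⟨w', hadj, ?_⟩
    have := rk_le G' h1 q
    rw [SimpleGraph.Walk.length_cons] at h2
    omega

theorem rk_zero {w : W} (h : rk G' w = 0) : orb G' w = m0 G' w := by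
  obtain ⟨u, h1, p, h2⟩ := rk_spec G' w
  rw [h] at h2
  have := SimpleGraph.Walk.eq_of_length_eq_zero h2
  rw [this, h1]

/-- half the number of removed layers -/
noncomputable def hs (w : W) : ℕ := (m0 G' w - 1) / 2

theorem hs_lt (w : W) : 2 * hs G' w < orb G' w := by
  have h1 := m0_le_self G' w
  have h2 := m0_pos G' w
  unfold hs
  omega

theorem hs_orb {w w' : W} (h : Orb G' w w') : hs G' w = hs G' w' := by
  unfold hs; rw [m0_orb G' h]

theorem hs_adj {w w' : W} (h : G'.Adj w w') : hs G' w = hs G' w' := by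
  unfold hs; rw [m0_reach G' h.reachable]

end

/-- differences of positions -/
def dl {W : Type} (idx m : W → ℕ) (u w : W) : ℕ := (idx w + m u - idx u) % m u

/-- the pairs which are coloured together with `G'` -/
def FF {W : Type} (G' : SimpleGraph W) (idx : W → ℕ) (u w : W) : Prop :=
  Orb G' u w ∧ hs G' u < dl idx (orb G') u w ∧ dl idx (orb G') u w + hs G' u < orb G' u

section

variable {W : Type} [Fintype W] (G' : SimpleGraph W) (idx : W → ℕ)
  (hi1 : ∀ w, idx w < orb G' w)
  (hi2 : ∀ w w', (∃ φ : G' ≃g G', φ w = w') → idx w = idx w' → w = w')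

include hi1 hi2

theorem dl_eq {u w : W} (h : Orb G' u w) : dl idx (orb G') u w =
    if idx u ≤ idx w then idx w - idx u else idx w + orb G' u - idx u := by
  unfold dl
  have h1 := hi1 w
  rw [← orb_eq G' u w h] at h1
  exact mod_aux _ _ _ (hi1 u) h1

theorem dl_lt {u w : W} (h : Orb G' u w) : dl idx (orb G') u w < orb G' u := by
  exact Nat.mod_lt _ (orb_pos G' u)

theorem dl_self (u : W) : dl idx (orb G') u u = 0 := by
  rw [dl_eq G' idx hi1 hi2 (Orb.refl G' u)]; simp

theorem dl_pos {u w : W} (h : Orb G' u w) (hne : u ≠ w) : 0 < dl idx (orb G') u w := by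
  rw [dl_eq G' idx hi1 hi2 h]
  have h1 : idx u ≠ idx w := fun h' => hne (hi2 u w h h')
  have h2 := hi1 u
  split_ifs <;> omega

theorem dl_swap {u w : W} (h : Orb G' u w) (hne : u ≠ w) :
    dl idx (orb G') w u = orb G' u - dl idx (orb G') u w := by
  have h0 := orb_eq G' u w h
  rw [dl_eq G' idx hi1 hi2 h, dl_eq G' idx hi1 hi2 (h.symm G'), ← h0]
  have h1 : idx u ≠ idx w := fun h' => hne (hi2 u w h h')
  have h2 := hi1 u
  have h3 := hi1 w
  split_ifs <;> omega

theorem dl_inj {u w w' : W} (h : Orb G' u w) (h' : Orb G' u w')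
    (heq : dl idx (orb G') u w = dl idx (orb G') u w') : w = w' := by
  rw [dl_eq G' idx hi1 hi2 h, dl_eq G' idx hi1 hi2 h'] at heq
  have h1 := hi1 w
  have h2 := hi1 w'
  rw [← orb_eq G' u w h] at h1
  rw [← orb_eq G' u w' h'] at h2
  have h3 := hi1 u
  apply hi2 w w' ((h.symm G').trans G' h')
  split_ifs at heq <;> omega

theorem FF_symm {u w : W} (h : FF G' idx u w) : FF G' idx w u := by
  obtain ⟨h1, h2, h3⟩ := h
  have hne : u ≠ w := by
    rintro rfl
    rw [dl_self G' idx hi1 hi2] at h2
    omega
  refine ⟨h1.symm G', ?_, ?_⟩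
  · rw [dl_swap G' idx hi1 hi2 h1 hne, ← hs_orb G' h1]; omega
  · rw [dl_swap G' idx hi1 hi2 h1 hne, ← hs_orb G' h1, ← orb_eq G' u w h1]; omega

theorem FF_ne {u w : W} (h : FF G' idx u w) : u ≠ w := by
  rintro rfl
  have h2 := h.2.1
  rw [dl_self G' idx hi1 hi2] at h2
  omega

open Classical in
theorem FF_card (u : W) : (univ.filter fun w => FF G' idx u w).card + (2 * hs G' u + 1) ≤ orb G' u := by
  have h1 : (univ.filter fun w => FF G' idx u w).card ≤
      (Finset.Ioo (hs G' u) (orb G' u - hs G' u)).card := by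
    apply Finset.card_le_card_of_injOn (fun w => dl idx (orb G') u w)
    · intro w hw
      have hw' : FF G' idx u w := by simpa using hw
      have h2 := hw'.2.1
      have h3 := hw'.2.2
      simp only [Finset.coe_Ioo, Set.mem_Ioo]
      omega
    · intro w hw w' hw' heq
      have hw1 : FF G' idx u w := by simpa using hw
      have hw2 : FF G' idx u w' := by simpa using hw'
      exact dl_inj G' idx hi1 hi2 hw1.1 hw2.1 heq
  rw [Nat.card_Ioo] at h1
  have h2 := hs_lt G' u
  omega

theorem FF_unique {u w w' : W} (hu : rk G' u = 0) (h : FF G' idx u w) (h' : FF G' idx u w') :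
    w = w' := by
  have h1 := rk_zero G' hu
  apply dl_inj G' idx hi1 hi2 h.1 h'.1
  have h2 := h.2
  have h3 := h'.2
  have h4 := m0_pos G' u
  have h5 : hs G' u = (m0 G' u - 1) / 2 := rfl
  omega

end

/-- The colouring. -/
theorem wreath_EC' {V W : Type} [Fintype V] [Fintype W] (G : SimpleGraph V) (G' : SimpleGraph W)
    [DecidableRel G'.Adj] (d D : ℕ) (hd : 1 ≤ d) (hG : EC d G)
    (h1 : ∀ w, d * orb G' w + G'.degree w ≤ D) : EC D (wreath G G') := by
  classical
  obtain ⟨idx, hi1, hi2⟩ := exists_idx G'
  obtain ⟨e, he⟩ := exists_nth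
  obtain ⟨g, hg⟩ := hG
  let z : W → W → ℕ := fun u w => (if G'.Adj u w then 1 else 0) + (if FF G' idx u w then d else 0)
  have hzs : ∀ u w, z u w = z w u := by
    intro u w
    have h2 : FF G' idx u w ↔ FF G' idx w u :=
      ⟨FF_symm G' idx hi1 hi2, FF_symm G' idx hi1 hi2⟩
    simp only [z, G'.adj_comm u w, h2]
  have hz0 : ∀ u, z u u = 0 := by
    intro u
    have h2 : ¬ FF G' idx u u := fun h => FF_ne G' idx hi1 hi2 h rfl
    simp [z, h2]
  have hzsum : ∀ u, ∑ w, z u w + d + d * (2 * hs G' u) ≤ D := by
    intro u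
    have h2 : ∑ w, z u w = G'.degree u + d * (univ.filter fun w => FF G' idx u w).card := by
      simp only [z, Finset.sum_add_distrib]
      congr 1
      · rw [← Finset.card_filter, ← SimpleGraph.card_neighborFinset_eq_degree]
        congr 1
        ext w
        simp
      · rw [← Finset.sum_filter, Finset.sum_const, smul_eq_mul, mul_comm]
    have h3 := FF_card G' idx hi1 hi2 u
    have h4 := h1 u
    have h5 := Nat.mul_le_mul_left d h3
    rw [h2]
    ring_nf at h5 h4 ⊢
    omega
  let E : W → W := fun x => if h : ∃ y, FF G' idx x y then h.choose else x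
  have hE : ∀ x y, rk G' x = 0 → FF G' idx x y → E x = y := by
    intro x y hx hxy
    have h : ∃ y, FF G' idx x y := ⟨y, hxy⟩
    simp only [E, dif_pos h]
    exact FF_unique G' idx hi1 hi2 hx h.choose_spec hxy
  -- the colourings of the quotients
  have hΦ : ∀ τ : ℕ, ∃ φ : ℕ → W → W, (∀ c x, φ c (φ c x) = x) ∧
      ((∃ w, hs G' w = τ) → ∀ x y, x ≠ y → ((range (D - d * (2 * τ))).filter
        fun c => φ c x = y).card = if hs G' x = τ ∧ hs G' y = τ then z x y else 0) := by
    intro τ
    by_cases hτ : ∃ w, hs G' w = τ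
    · obtain ⟨w0, hw0⟩ := hτ
      obtain ⟨φ, h2, h3⟩ := ordered_vizing
        (fun x y => if hs G' x = τ ∧ hs G' y = τ then z x y else 0)
        (by
          intro x y
          simp only [hzs x y, and_comm])
        (by intro x; simp [hz0]) d (D - d * (2 * τ)) (rk G') E
        (by
          intro x
          by_cases hx : hs G' x = τ
          · have h4 := hzsum x
            rw [hx] at h4
            have h5 : ∑ y, (if hs G' x = τ ∧ hs G' y = τ then z x y else 0) ≤ ∑ y, z x y := by
              apply Finset.sum_le_sum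
              intro y _
              split_ifs
              · exact le_rfl
              · exact Nat.zero_le _
            omega
          · have h5 : ∑ y, (if hs G' x = τ ∧ hs G' y = τ then z x y else 0) = 0 := by
              apply Finset.sum_eq_zero
              intro y _
              rw [if_neg (fun h => hx h.1)]
            rw [h5]
            have h4 := hzsum w0
            rw [hw0] at h4
            omega)
        (by
          intro x y hxy
          by_cases hst : hs G' x = τ ∧ hs G' y = τ
          · rw [if_pos hst]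
            by_cases hF : FF G' idx x y
            · by_cases hadj : G'.Adj x y
              · right
                refine ⟨by simp [z, hF, hadj]; omega, ?_⟩
                have hr : rk G' x = rk G' y := rk_orb G' hF.1
                rcases Nat.eq_zero_or_pos (rk G' x) with h0 | h0
                · exact Or.inl (hE x y h0 hF)
                · right
                  obtain ⟨w, h4, h5⟩ := rk_pos G' (w := y) (by omega)
                  refine ⟨w, by omega, ?_⟩
                  have h6 : hs G' w = τ := by rw [← hs_adj G' h4]; exact hst.2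
                  rw [if_pos ⟨hst.2, h6⟩]
                  simp [z, h4]
              · left
                simp [z, hF, hadj]
            · left
              simp only [z, if_neg hF]
              split_ifs <;> omega
          · left
            rw [if_neg hst]
            exact Nat.zero_le _)
      exact ⟨φ, h2, fun _ => h3⟩
    · exact ⟨fun _ v => v, fun _ _ => rfl, fun h => absurd h hτ⟩
  choose Φ hΦ1 hΦ2 using hΦ
  let N : W → ℕ := fun u => D - d * (2 * hs G' u)
  let C : W → W → Finset ℕ := fun u w => (range (N u)).filter fun c => Φ (hs G' u) c u = w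
  have hCs : ∀ u w, hs G' u = hs G' w → C u w = C w u := by
    intro u w h
    ext c
    simp only [C, N, mem_filter, h]
    constructor
    · rintro ⟨h2, h3⟩
      have h4 := hΦ1 (hs G' w) c u
      rw [h3] at h4
      exact ⟨h2, h4⟩
    · rintro ⟨h2, h3⟩
      have h4 := hΦ1 (hs G' w) c w
      rw [h3] at h4
      exact ⟨h2, h4⟩
  have hCcard : ∀ u w, u ≠ w → hs G' u = hs G' w → (C u w).card = z u w := by
    intro u w hne h
    have h2 := hΦ2 (hs G' u) ⟨u, rfl⟩ u w hne
    rw [if_pos ⟨rfl, h.symm⟩] at h2
    exact h2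
  have hCself : ∀ u, d ≤ (C u u).card := by
    intro u
    have h2 : (range (N u)).card = ∑ w, (C u w).card :=
      Finset.card_eq_sum_card_fiberwise (f := fun c => Φ (hs G' u) c u) (t := univ)
        (fun c _ => Finset.mem_coe.2 (mem_univ _))
    rw [Finset.card_range, ← Finset.add_sum_erase univ (fun w => (C u w).card) (mem_univ u)] at h2
    have h3 : ∑ w ∈ univ.erase u, (C u w).card ≤ ∑ w, z u w := by
      calc ∑ w ∈ univ.erase u, (C u w).card ≤ ∑ w ∈ univ.erase u, z u w := by
            apply Finset.sum_le_sum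
            intro w hw
            rw [mem_erase] at hw
            have h4 := hΦ2 (hs G' u) ⟨u, rfl⟩ u w hw.1.symm
            have h5 : (C u w).card = if hs G' u = hs G' u ∧ hs G' w = hs G' u then z u w else 0 := h4
            rw [h5]
            split_ifs
            · exact le_rfl
            · exact Nat.zero_le _
        _ ≤ ∑ w, z u w := Finset.sum_le_sum_of_subset (Finset.erase_subset _ _)
    have h4 := hzsum u
    simp only [N] at h2
    omega
  have hCmem : ∀ u w c, c ∈ C u w → c < N u ∧ Φ (hs G' u) c u = w := by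
    intro u w c hc
    simp only [C, mem_filter, mem_range] at hc
    exact hc
  let f : V → ℕ := fun x => (Fintype.equivFin V x).val
  have hf : Function.Injective f := fun a b h => (Fintype.equivFin V).injective (Fin.ext h)
  let pos : W → ℕ → ℕ := fun u k => if k ≤ hs G' u then k - 1 else hs G' u + (k - (orb G' u - hs G' u))
  let T : V → W → V → W → Prop := fun x u y w => x ≠ y ∧ u ≠ w ∧ ¬ FF G' idx u w
  let col : V × W → V × W → ℕ := fun p q =>
    if T p.1 p.2 q.1 q.2 then
      N p.2 + (g p.1 q.1 * (2 * hs G' p.2) +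
        pos p.2 (if f p.1 < f q.1 then dl idx (orb G') p.2 q.2 else dl idx (orb G') q.2 p.2))
    else e (C p.2 q.2) (if p.1 = q.1 then (if FF G' idx p.2 q.2 then d else 0) else g p.1 q.1)
  -- facts on neighbours
  have hadj : ∀ x u y w, (wreath G G').Adj (x, u) (y, w) →
      (x = y ∧ G'.Adj u w) ∨ (G.Adj x y ∧ Orb G' u w) := fun x u y w h => h
  have hhs : ∀ x u y w, (wreath G G').Adj (x, u) (y, w) → hs G' u = hs G' w := by
    intro x u y w h
    rcases hadj x u y w h with ⟨-, h2⟩ | ⟨-, h2⟩
    · exact hs_adj G' h2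
    · exact hs_orb G' h2
  -- low neighbours
  have hlow : ∀ x u y w, (wreath G G').Adj (x, u) (y, w) → ¬ T x u y w →
      (if x = y then (if FF G' idx u w then d else 0) else g x y) < (C u w).card := by
    intro x u y w h hT
    have hst := hhs x u y w h
    rcases hadj x u y w h with ⟨h2, h3⟩ | ⟨h2, h3⟩
    · rw [if_pos h2, hCcard u w (G'.ne_of_adj h3) hst]
      simp only [z, if_pos h3]
      split_ifs <;> omega
    · have hxy := G.ne_of_adj h2
      rw [if_neg hxy]
      have hgl := (hg x y h2).2.1
      by_cases huw : u = w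
      · subst huw
        exact lt_of_lt_of_le hgl (hCself u)
      · rw [hCcard u w huw hst]
        have hF : FF G' idx u w := by
          by_contra hF
          exact hT ⟨hxy, huw, hF⟩
        simp only [z, if_pos hF]
        omega
  -- high neighbours
  have hhigh : ∀ x u y w, (wreath G G').Adj (x, u) (y, w) → T x u y w →
      G.Adj x y ∧ Orb G' u w ∧
      (∀ k, k = dl idx (orb G') u w ∨ k = dl idx (orb G') w u →
        (0 < k ∧ k ≤ hs G' u) ∨ (hs G' u < k ∧ orb G' u - hs G' u ≤ k ∧ k < orb G' u)) := by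
    intro x u y w h hT
    rcases hadj x u y w h with ⟨h2, h3⟩ | ⟨h2, h3⟩
    · exact absurd h2 hT.1
    · refine ⟨h2, h3, ?_⟩
      have h4 := dl_pos G' idx hi1 hi2 h3 hT.2.1
      have h5 := dl_lt G' idx hi1 hi2 h3
      have h6 := dl_swap G' idx hi1 hi2 h3 hT.2.1
      have h7 : ¬ (hs G' u < dl idx (orb G') u w ∧ dl idx (orb G') u w + hs G' u < orb G' u) :=
        fun h => hT.2.2 ⟨h3, h⟩
      have h8 := hs_lt G' u
      rintro k (rfl | rfl)
      · omega
      · rw [h6]; omega
  have hposlt : ∀ u k, (0 < k ∧ k ≤ hs G' u) ∨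
      (hs G' u < k ∧ orb G' u - hs G' u ≤ k ∧ k < orb G' u) → pos u k < 2 * hs G' u := by
    intro u k hk
    simp only [pos]
    split_ifs <;> omega
  have hposinj : ∀ u k k', ((0 < k ∧ k ≤ hs G' u) ∨
      (hs G' u < k ∧ orb G' u - hs G' u ≤ k ∧ k < orb G' u)) → ((0 < k' ∧ k' ≤ hs G' u) ∨
      (hs G' u < k' ∧ orb G' u - hs G' u ≤ k' ∧ k' < orb G' u)) → pos u k = pos u k' → k = k' := by
    intro u k k' hk hk' h
    simp only [pos] at h
    split_ifs at h <;> omega
  refine ⟨col, ?_⟩
  rintro ⟨x, u⟩ ⟨y, w⟩ hpq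
  have hst := hhs x u y w hpq
  have hNw : N u = N w := by simp only [N, hst]
  have hND : N u + d * (2 * hs G' u) = D := by
    have := hzsum u
    simp only [N]
    omega
  have hTs : T x u y w ↔ T y w x u := by
    simp only [T]
    constructor
    · rintro ⟨h2, h3, h4⟩
      exact ⟨h2.symm, h3.symm, fun h => h4 (FF_symm G' idx hi1 hi2 h)⟩
    · rintro ⟨h2, h3, h4⟩
      exact ⟨h2.symm, h3.symm, fun h => h4 (FF_symm G' idx hi1 hi2 h)⟩
  have hFs : FF G' idx u w ↔ FF G' idx w u :=
    ⟨FF_symm G' idx hi1 hi2, FF_symm G' idx hi1 hi2⟩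
  refine ⟨?_, ?_, ?_⟩
  · -- symmetry
    by_cases hT : T x u y w
    · have hT' := hTs.1 hT
      obtain ⟨h2, h3, -⟩ := hhigh x u y w hpq hT
      simp only [col, if_pos hT, if_pos hT']
      have hm : orb G' u = orb G' w := orb_eq G' u w h3
      have hfne : f x ≠ f y := fun h => hT.1 (hf h)
      rw [(hg x y h2).1, hNw]
      simp only [pos, hst, hm]
      by_cases hlt : f x < f y
      · rw [if_pos hlt, if_neg (show ¬ f y < f x by omega)]
      · rw [if_neg hlt, if_pos (show f y < f x by omega)]
    · have hT' : ¬ T y w x u := fun h => hT (hTs.2 h)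
      simp only [col, if_neg hT, if_neg hT']
      rw [hCs u w hst]
      congr 1
      rcases hadj x u y w hpq with ⟨h2, h3⟩ | ⟨h2, h3⟩
      · subst h2
        simp only [if_true, hFs]
      · rw [if_neg (G.ne_of_adj h2), if_neg (G.ne_of_adj h2).symm, (hg x y h2).1]
  · -- bound
    by_cases hT : T x u y w
    · obtain ⟨h2, h3, h4⟩ := hhigh x u y w hpq hT
      simp only [col, if_pos hT]
      have h5 : pos u (if f x < f y then dl idx (orb G') u w else dl idx (orb G') w u)
          < 2 * hs G' u := by
        apply hposlt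
        apply h4
        split_ifs
        · exact Or.inl rfl
        · exact Or.inr rfl
      have h6 := (hg x y h2).2.1
      have h7 : g x y * (2 * hs G' u) + (2 * hs G' u) ≤ d * (2 * hs G' u) := by
        calc g x y * (2 * hs G' u) + (2 * hs G' u) = (g x y + 1) * (2 * hs G' u) := by ring
          _ ≤ d * (2 * hs G' u) := Nat.mul_le_mul_right _ h6
      omega
    · simp only [col, if_neg hT]
      have h2 := (he (C u w) _ (hlow x u y w hpq hT)).1
      have h3 := (hCmem u w _ h2).1
      have h4 : N u ≤ D := Nat.sub_le _ _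
      omega
  · -- properness
    rintro ⟨y', w'⟩ hpq' hne heq
    apply hne
    by_cases hT : T x u y w
    · obtain ⟨h2, h3, h4⟩ := hhigh x u y w hpq hT
      by_cases hT' : T x u y' w'
      · obtain ⟨h2', h3', h4'⟩ := hhigh x u y' w' hpq' hT'
        simp only [col, if_pos hT, if_pos hT'] at heq
        have hk : (0 < (if f x < f y then dl idx (orb G') u w else dl idx (orb G') w u) ∧
            (if f x < f y then dl idx (orb G') u w else dl idx (orb G') w u) ≤ hs G' u) ∨
            (hs G' u < (if f x < f y then dl idx (orb G') u w else dl idx (orb G') w u) ∧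
            orb G' u - hs G' u ≤ (if f x < f y then dl idx (orb G') u w
              else dl idx (orb G') w u) ∧
            (if f x < f y then dl idx (orb G') u w else dl idx (orb G') w u) < orb G' u) := by
          apply h4
          split_ifs
          · exact Or.inl rfl
          · exact Or.inr rfl
        have hk' : (0 < (if f x < f y' then dl idx (orb G') u w' else dl idx (orb G') w' u) ∧
            (if f x < f y' then dl idx (orb G') u w' else dl idx (orb G') w' u) ≤ hs G' u) ∨
            (hs G' u < (if f x < f y' then dl idx (orb G') u w' else dl idx (orb G') w' u) ∧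
            orb G' u - hs G' u ≤ (if f x < f y' then dl idx (orb G') u w'
              else dl idx (orb G') w' u) ∧
            (if f x < f y' then dl idx (orb G') u w' else dl idx (orb G') w' u) < orb G' u) := by
          apply h4'
          split_ifs
          · exact Or.inl rfl
          · exact Or.inr rfl
        have hp := hposlt u _ hk
        have hp' := hposlt u _ hk'
        have h5 : g x y = g x y' ∧
            pos u (if f x < f y then dl idx (orb G') u w else dl idx (orb G') w u) =
            pos u (if f x < f y' then dl idx (orb G') u w' else dl idx (orb G') w' u) := by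
          have h6 := Nat.add_left_cancel heq
          have h7 : 0 < 2 * hs G' u := by omega
          constructor
          · have h8 := congrArg (· / (2 * hs G' u)) h6
            rw [mul_comm, Nat.mul_add_div h7, Nat.div_eq_of_lt hp, mul_comm (g x y'),
              Nat.mul_add_div h7, Nat.div_eq_of_lt hp'] at h8
            simpa using h8
          · have h8 := congrArg (· % (2 * hs G' u)) h6
            rw [mul_comm, Nat.mul_add_mod, Nat.mod_eq_of_lt hp, mul_comm (g x y'),
              Nat.mul_add_mod, Nat.mod_eq_of_lt hp'] at h8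
            exact h8
        have hyy : y = y' := by
          by_contra hyy
          exact (hg x y h2).2.2 y' h2' hyy h5.1
        subst hyy
        have h6 := hposinj u _ _ hk hk' h5.2
        by_cases hlt : f x < f y
        · rw [if_pos hlt, if_pos hlt] at h6
          rw [dl_inj G' idx hi1 hi2 h3 h3' h6]
        · rw [if_neg hlt, if_neg hlt, dl_swap G' idx hi1 hi2 h3 hT.2.1,
            dl_swap G' idx hi1 hi2 h3' hT'.2.1] at h6
          have h7 := dl_lt G' idx hi1 hi2 h3
          have h8 := dl_lt G' idx hi1 hi2 h3'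
          rw [dl_inj G' idx hi1 hi2 h3 h3' (by omega)]
      · exfalso
        simp only [col, if_pos hT, if_neg hT'] at heq
        have h5 := (he (C u w') _ (hlow x u y' w' hpq' hT')).1
        have h6 := (hCmem u w' _ h5).1
        omega
    · by_cases hT' : T x u y' w'
      · exfalso
        simp only [col, if_neg hT, if_pos hT'] at heq
        have h5 := (he (C u w) _ (hlow x u y w hpq hT)).1
        have h6 := (hCmem u w _ h5).1
        omega
      · simp only [col, if_neg hT, if_neg hT'] at heq
        have hl := hlow x u y w hpq hT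
        have hl' := hlow x u y' w' hpq' hT'
        have h5 := hCmem u w _ (he (C u w) _ hl).1
        have h6 := hCmem u w' _ (he (C u w') _ hl').1
        have hww : w = w' := by
          rw [← h5.2, heq, h6.2]
        subst hww
        have h7 := (he (C u w) _ hl).2 _ hl' heq
        rcases hadj x u y w hpq with ⟨h8, h9⟩ | ⟨h8, h9⟩
        · rcases hadj x u y' w hpq' with ⟨h10, h11⟩ | ⟨h10, h11⟩
          · rw [← h8, ← h10]
          · exfalso
            have hxy' := G.ne_of_adj h10
            rw [if_pos h8, if_neg hxy'] at h7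
            have hF : FF G' idx u w := by
              by_contra hF
              exact hT' ⟨hxy', G'.ne_of_adj h9, hF⟩
            rw [if_pos hF] at h7
            have := (hg x y' h10).2.1
            omega
        · have hxy := G.ne_of_adj h8
          rcases hadj x u y' w hpq' with ⟨h10, h11⟩ | ⟨h10, h11⟩
          · exfalso
            rw [if_neg hxy, if_pos h10] at h7
            have hF : FF G' idx u w := by
              by_contra hF
              exact hT ⟨hxy, G'.ne_of_adj h11, hF⟩
            rw [if_pos hF] at h7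
            have := (hg x y h8).2.1
            omega
          · rw [if_neg hxy, if_neg (G.ne_of_adj h10)] at h7
            have hyy : y = y' := by
              by_contra hyy
              exact (hg x y h8).2.2 y' h10 hyy h7
            rw [hyy]

end Pool.Agent.Helper437.Wr
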